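import Pool.Agent.H998.LT.Defs2

set_option autoImplicit false

/-!
# Product tilings with the integers: `S_int` and `S_tilestep`
-/

open MeasureTheory Real

namespace Pool.Agent.H998.LT

theorem t_int : S_row → S_int := by
  intro hrow h H C hN h0 u
  obtain ⟨D, hD⟩ := hrow h H C hN h0
  obtain ⟨h1, h2, -⟩ := hD 1 (by norm_num) (by norm_num) u
  simp only [div_one, one_mul] at h1 h2
  exact ⟨h1, h2⟩

namespace TileStep

/-- the map of `Λ × ℤ` to `ℤ × Λ` -/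
def mp {d : ℕ} (Λ : Set (Fin d → ℝ)) (p : Λ × ℤ) : up Λ :=
  ⟨Fin.cons (p.2 : ℝ) (p.1 : Fin d → ℝ), by
    refine ⟨?_, p.2, ?_⟩
    · rw [Fin.tail_cons]; exact p.1.2
    · rw [Fin.cons_zero]⟩

theorem mp_bij {d : ℕ} (Λ : Set (Fin d → ℝ)) : Function.Bijective (mp Λ) := by
  constructor
  · rintro ⟨a, n⟩ ⟨a', n'⟩ h
    have h1 : (Fin.cons (n : ℝ) (a : Fin d → ℝ) : Fin (d + 1) → ℝ) =
        Fin.cons (n' : ℝ) (a' : Fin d → ℝ) := congrArg Subtype.val h
    have h2 := congrFun h1 0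
    rw [Fin.cons_zero, Fin.cons_zero] at h2
    have h3 := congrArg (Fin.tail (α := fun _ => ℝ)) h1
    rw [Fin.tail_cons, Fin.tail_cons] at h3
    exact Prod.ext (Subtype.ext h3) (by exact_mod_cast h2)
  · rintro ⟨v, hv, n, hn⟩
    refine ⟨(⟨Fin.tail v, hv⟩, n), Subtype.ext ?_⟩
    show (Fin.cons (n : ℝ) (Fin.tail v) : Fin (d + 1) → ℝ) = v
    rw [← hn]
    exact Fin.cons_self_tail v

/-- the bijection of `Λ × ℤ` with `ℤ × Λ` -/
noncomputable def eqv {d : ℕ} (Λ : Set (Fin d → ℝ)) : (Λ × ℤ) ≃ up Λ :=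
  Equiv.ofBijective (mp Λ) (mp_bij Λ)

theorem ae_tail {d : ℕ} {P : (Fin d → ℝ) → Prop} (h : ∀ᵐ x : Fin d → ℝ, P x) :
    ∀ᵐ v : Fin (d + 1) → ℝ, P (Fin.tail v) := by
  have h1 := (volume_preserving_piFinSuccAbove (fun _ : Fin (d + 1) => ℝ) 0).quasiMeasurePreserving
  have h2 : Measure.QuasiMeasurePreserving (Prod.snd : ℝ × (Fin d → ℝ) → (Fin d → ℝ)) :=
    Measure.quasiMeasurePreserving_snd
  have h3 := (h2.comp h1).ae h
  filter_upwards [h3] with v hv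
  exact hv

theorem hasSum_pr {d : ℕ} {f : (Fin d → ℝ) → ℝ} {h : ℝ → ℝ} {Λ : Set (Fin d → ℝ)} {w c : ℝ}
    {v : Fin (d + 1) → ℝ} (h1 : HasSum (fun a : Λ => f (Fin.tail v - a)) w)
    (h2 : HasSum (fun k : ℤ => h (v 0 - k)) c) :
    HasSum (fun a : up Λ => pr f h (v - a)) (w * c) := by
  rw [← (eqv Λ).hasSum_iff]
  have h3 : ((fun a : up Λ => pr f h (v - a)) ∘ eqv Λ) =
      fun p : Λ × ℤ => f (Fin.tail v - p.1) * h (v 0 - p.2) := by
    funext p
    show pr f h (v - (Fin.cons (p.2 : ℝ) (p.1 : Fin d → ℝ) : Fin (d + 1) → ℝ)) = _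
    unfold pr
    have e1 : Fin.tail (v - (Fin.cons (p.2 : ℝ) (p.1 : Fin d → ℝ) : Fin (d + 1) → ℝ)) =
        Fin.tail v - p.1 := by
      funext i
      simp only [Fin.tail, Pi.sub_apply, Fin.cons_succ]
    rw [e1, Pi.sub_apply, Fin.cons_zero]
  rw [h3]
  exact h1.mul h2 (summable_mul_of_summable_norm h1.summable.norm h2.summable.norm)

end TileStep

theorem t_tilestep : S_tilestep := by
  intro d f g Λ w hT hg h h2 c hh hh2
  have h1 := TileStep.ae_tail hT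
  have h3 := TileStep.ae_tail hg
  show ∀ᵐ v : Fin (d + 1) → ℝ, _
  filter_upwards [h1, h3] with v hv hv'
  have hs : Summable fun a : Λ => g (Fin.tail v - a) := summable_abs_iff.1 hv'
  have e1 := TileStep.hasSum_pr hv (hh (v 0)).1
  have e2 := TileStep.hasSum_pr hs.hasSum (hh2 (v 0)).1
  have e3 := e1.add e2
  rw [mul_zero, add_zero] at e3
  exact e3

end Pool.Agent.H998.LT
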